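import Pool.Agent.helper3.NTS.EM
import Mathlib.GroupTheory.Perm.List

/-!
# MP_c8d30a, (A), section 7: successor, `mu`, invariance under the elementary moves

`sg s` = successor in the cyclic words `A` and `B^` (the marker is skipped), `mu s = (sg s)⁻¹ ∘ p ∘ sg s`.
-/

set_option autoImplicit false

namespace NTS

open NTH Equiv Equiv.Perm

universe u
variable {Ω : Type u} [DecidableEq Ω] {p : Ω → Ω}

/-- the successor in the cyclic words. -/
def sg (s : St Ω) : Perm Ω := List.formPerm s.1 * List.formPerm s.2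

/-- `mu`. -/
def mu (p : Ω → Ω) (s : St Ω) (o : Ω) : Ω := (sg s)⁻¹ (p (sg s o))

theorem mu_eq_of_tau {s t : St Ω} (τ : Perm Ω) (hτ : ∀ o, p (τ o) = τ (p o)) (h : sg t = τ * sg s) (o : Ω) :
    mu p t o = mu p s o := by
  unfold mu
  rw [h, mul_inv_rev, Perm.mul_apply, Perm.mul_apply, hτ]
  simp

theorem swap_mul_swap_conj {x p y : Ω} (hxy : x ≠ y) (hpy : p ≠ y) :
    swap x p * swap p y = swap x y * swap x p := by
  ext s
  simp only [Perm.mul_apply]
  by_cases h1 : s = x
  · subst h1
    rcases eq_or_ne s p with h | h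
    · subst h; simp
    · rw [swap_apply_of_ne_of_ne h hxy, swap_apply_left, swap_apply_of_ne_of_ne h.symm hpy]
  by_cases h2 : s = p
  · subst h2
    rw [swap_apply_left, swap_apply_of_ne_of_ne hxy.symm hpy.symm, swap_apply_right,
      swap_apply_left]
  by_cases h3 : s = y
  · subst h3
    rw [swap_apply_right, swap_apply_right, swap_apply_of_ne_of_ne h1 h2, swap_apply_right]
  · rw [swap_apply_of_ne_of_ne h2 h3, swap_apply_of_ne_of_ne h1 h2, swap_apply_of_ne_of_ne h1 h3]

theorem formPerm_append2 (x y : Ω) (P Q : List Ω) (h : ((x :: P) ++ (y :: Q)).Nodup) :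
    List.formPerm ((x :: P) ++ (y :: Q)) = swap x y * (List.formPerm (x :: P) * List.formPerm (y :: Q)) := by
  induction P generalizing x with
  | nil =>
      simp only [List.cons_append, List.nil_append, List.formPerm_cons_cons, List.formPerm_singleton, one_mul]
  | cons p P ih =>
      have h1 : ((p :: P) ++ (y :: Q)).Nodup := (List.nodup_cons.mp h).2
      have e1 : (x :: p :: P) ++ (y :: Q) = x :: p :: (P ++ y :: Q) := rfl
      have e2 : (p :: P) ++ (y :: Q) = p :: (P ++ y :: Q) := rfl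
      rw [e1, List.formPerm_cons_cons, ← e2, ih p h1, List.formPerm_cons_cons]
      have hxy : x ≠ y := by
        rintro rfl
        simp at h
      have hpy : p ≠ y := by
        rintro rfl
        simp at h
      rw [← mul_assoc, swap_mul_swap_conj hxy hpy]
      simp only [mul_assoc]

theorem formPerm_append3 (x y z : Ω) (P Q R : List Ω)
    (h : ((x :: P) ++ (y :: Q) ++ (z :: R)).Nodup) :
    List.formPerm ((x :: P) ++ (y :: Q) ++ (z :: R)) =
      swap x y * swap y z * (List.formPerm (x :: P) * List.formPerm (y :: Q) * List.formPerm (z :: R)) := by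
  have e : (x :: P) ++ (y :: Q) ++ (z :: R) = (x :: P) ++ (y :: (Q ++ z :: R)) := by simp
  have h2 : ((y :: Q) ++ (z :: R)).Nodup := by
    rw [List.append_assoc] at h
    exact (List.nodup_append.mp h).2.1
  rw [e] at h ⊢
  have e3 : y :: (Q ++ z :: R) = (y :: Q) ++ (z :: R) := rfl
  rw [formPerm_append2 x y P _ h, e3, formPerm_append2 y z Q R h2]
  have hd : Perm.Disjoint (List.formPerm (x :: P)) (swap y z) := by
    rw [Equiv.Perm.disjoint_iff_eq_or_eq]
    intro s
    by_cases hs : s ∈ x :: P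
    · right
      have hne : s ∉ y :: (Q ++ z :: R) := fun h' =>
        (List.nodup_append.mp h).2.2 s hs s h' rfl
      apply swap_apply_of_ne_of_ne
      · rintro rfl; exact hne (by simp)
      · rintro rfl; exact hne (by simp)
    · left
      exact List.formPerm_apply_of_notMem hs
  rw [← mul_assoc (List.formPerm (x :: P)) (swap y z), hd.commute.eq]
  simp only [mul_assoc]

/-- three blocks, cyclically. -/
theorem formPerm_blocks (D : List Ω) (a b c : Ω) (P Q R : List Ω) (h : (D ++ (a :: P ++ (b :: Q ++ c :: R))).Nodup) :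
    List.formPerm (D ++ (a :: P ++ (b :: Q ++ c :: R))) =
      swap a b * swap b c * (List.formPerm (a :: P) * List.formPerm (b :: Q) * List.formPerm (c :: (R ++ D))) := by
  have e : (D ++ (a :: P ++ (b :: Q ++ c :: R))) ~r (a :: P ++ b :: Q ++ c :: (R ++ D)) := by
    have := List.isRotated_append (l := D) (l' := a :: P ++ (b :: Q ++ c :: R))
    simpa using this
  rw [List.formPerm_eq_of_isRotated h e]
  exact formPerm_append3 a b c P Q (R ++ D) (e.nodup_iff.1 h)

/-- blocks of different words commute with the swaps of the other word. -/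
theorem swap_comm_formPerm {a b : Ω} {l : List Ω} (ha : a ∉ l) (hb : b ∉ l) :
    Commute (swap a b) (List.formPerm l) := by
  apply Perm.Disjoint.commute
  intro x
  by_cases h : x ∈ l
  · left
    exact swap_apply_of_ne_of_ne (fun h' => ha (h' ▸ h)) (fun h' => hb (h' ▸ h))
  · right
    exact List.formPerm_apply_of_notMem h

theorem swaps_comm_formPerm {a b c : Ω} {l : List Ω} (ha : a ∉ l) (hb : b ∉ l) (hc : c ∉ l) :
    Commute (swap a b * swap b c) (List.formPerm l) :=
  (swap_comm_formPerm ha hb).mul_left (swap_comm_formPerm hb hc)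

theorem formPerm_comm {l l' : List Ω} (h : l.Disjoint l') : Commute (List.formPerm l) (List.formPerm l') := by
  apply Perm.Disjoint.commute
  intro x
  by_cases hx : x ∈ l
  · right
    exact List.formPerm_apply_of_notMem (fun h' => h hx h')
  · left
    exact List.formPerm_apply_of_notMem hx

theorem grp_th {G : Type u} [Group G] {s1 s2 s1' s2' τ f1 f2 f3 f4 f5 f6 : G} (h : s1' * s2' = τ * (s1 * s2))
    (c1 : Commute s2 f1) (c2 : Commute s2 f2) (c3 : Commute s2 f3)
    (d2 : Commute s2' f2) (d4 : Commute s2' f4) (d3 : Commute s2' f3)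
    (e2 : Commute f1 f2) (e3 : Commute f1 f3) (e4 : Commute f1 f4) (e5 : Commute f1 f5) (g : Commute f3 f4) :
    s1' * (f2 * f4 * f3) * (s2' * (f5 * f1 * f6)) = τ * (s1 * (f1 * f2 * f3) * (s2 * (f4 * f5 * f6))) := by
  have h1 : (f2 * f4 * f3) * s2' = s2' * (f2 * f4 * f3) := (((d2.mul_right d4).mul_right d3).eq).symm
  have h2 : (f1 * f2 * f3) * s2 = s2 * (f1 * f2 * f3) := (((c1.mul_right c2).mul_right c3).eq).symm
  have h3 : (f2 * f4 * f3) * f5 * f1 = f1 * ((f2 * f4 * f3) * f5) :=
    ((((e2.mul_right e4).mul_right e3).mul_right e5).eq).symm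
  calc s1' * (f2 * f4 * f3) * (s2' * (f5 * f1 * f6)) = s1' * ((f2 * f4 * f3) * s2') * (f5 * f1 * f6) := by
        simp only [mul_assoc]
    _ = (s1' * s2') * ((f2 * f4 * f3) * f5 * f1) * f6 := by rw [h1]; simp only [mul_assoc]
    _ = τ * (s1 * s2) * (f1 * (f2 * (f4 * f3) * f5)) * f6 := by rw [h3, h]; simp only [mul_assoc]
    _ = τ * (s1 * s2) * (f1 * (f2 * (f3 * f4) * f5)) * f6 := by rw [g.eq]
    _ = τ * (s1 * (s2 * (f1 * f2 * f3)) * (f4 * f5 * f6)) := by simp only [mul_assoc]
    _ = τ * (s1 * (f1 * f2 * f3) * (s2 * (f4 * f5 * f6))) := by rw [← h2]; simp only [mul_assoc]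

theorem grp_cm {G : Type u} [Group G] {s1 s2 s1' s2' τ f1 f2 f3 f4 f5 f6 : G} (h : s1' * s2' = τ * (s1 * s2))
    (c1 : Commute s2 f1) (c2 : Commute s2 f2) (c3 : Commute s2 f3)
    (d1 : Commute s2' f1) (d2 : Commute s2' f2) (d3 : Commute s2' f3)
    (e : Commute f1 f2) (g : Commute f4 f5) :
    s1' * (f2 * f1 * f3) * (s2' * (f5 * f4 * f6)) = τ * (s1 * (f1 * f2 * f3) * (s2 * (f4 * f5 * f6))) := by
  have h1 : (f2 * f1 * f3) * s2' = s2' * (f2 * f1 * f3) := (((d2.mul_right d1).mul_right d3).eq).symm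
  have h2 : (f1 * f2 * f3) * s2 = s2 * (f1 * f2 * f3) := (((c1.mul_right c2).mul_right c3).eq).symm
  calc s1' * (f2 * f1 * f3) * (s2' * (f5 * f4 * f6)) = s1' * ((f2 * f1 * f3) * s2') * (f5 * f4 * f6) := by
        simp only [mul_assoc]
    _ = (s1' * s2') * ((f2 * f1) * f3) * ((f5 * f4) * f6) := by rw [h1]; simp only [mul_assoc]
    _ = τ * (s1 * s2) * ((f1 * f2) * f3) * ((f4 * f5) * f6) := by rw [← e.eq, ← g.eq, h]
    _ = τ * (s1 * (s2 * (f1 * f2 * f3)) * (f4 * f5 * f6)) := by simp only [mul_assoc]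
    _ = τ * (s1 * (f1 * f2 * f3) * (s2 * (f4 * f5 * f6))) := by rw [← h2]; simp only [mul_assoc]

/-- products of swaps of different elements. -/
theorem swaps_apply {n : ℕ} (f : Fin n → Ω) (hf : Function.Injective f) (L : List (Fin n × Fin n)) (i : Fin n) :
    (L.map (fun q => swap (f q.1) (f q.2))).prod (f i) = f ((L.map (fun q => swap q.1 q.2)).prod i) := by
  induction L with
  | nil => rfl
  | cons q L ih =>
    rw [List.map_cons, List.prod_cons, List.map_cons, List.prod_cons, Perm.mul_apply, Perm.mul_apply, ih,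
      hf.map_swap]

theorem swaps_fix {n : ℕ} (f : Fin n → Ω) (L : List (Fin n × Fin n)) (t : Ω) (ht : ∀ i, t ≠ f i) :
    (L.map (fun q => swap (f q.1) (f q.2))).prod t = t := by
  induction L with
  | nil => rfl
  | cons q L ih =>
    rw [List.map_cons, List.prod_cons, Perm.mul_apply, ih, swap_apply_of_ne_of_ne (ht _) (ht _)]

theorem swaps_ext {n : ℕ} (f : Fin n → Ω) (hf : Function.Injective f) (L L' : List (Fin n × Fin n))
    (h : ∀ i, (L.map (fun q => swap q.1 q.2)).prod i = (L'.map (fun q => swap q.1 q.2)).prod i) :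
    (L.map (fun q => swap (f q.1) (f q.2))).prod = (L'.map (fun q => swap (f q.1) (f q.2))).prod := by
  ext t
  by_cases ht : ∃ i, t = f i
  · obtain ⟨i, rfl⟩ := ht
    rw [swaps_apply f hf, swaps_apply f hf, h]
  · push Not at ht
    rw [swaps_fix f L t ht, swaps_fix f L' t ht]

theorem inj6 {a b c a' b' c' : Ω} (h : [a, b, c, a', b', c'].Nodup) : Function.Injective ![a, b, c, a', b', c'] := by
  have e : [a, b, c, a', b', c'] = List.ofFn ![a, b, c, a', b', c'] := by simp [List.ofFn_succ]
  rw [e, List.nodup_ofFn] at h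
  exact h

/-- the double 3-cycle of a triple swap. -/
theorem tau_cm {a b c a' b' c' : Ω} (h : [a, b, c, a', b', c'].Nodup) :
    (swap b a * swap a c) * (swap b' a' * swap a' c') =
      (swap a b * swap b c * (swap a' b' * swap b' c')) * ((swap a b * swap b c) * (swap a' b' * swap b' c')) := by
  have h1 := swaps_ext _ (inj6 h)
    [(1, 0), (0, 2), (4, 3), (3, 5)] [(0, 1), (1, 2), (3, 4), (4, 5), (0, 1), (1, 2), (3, 4), (4, 5)] (by decide)
  simpa [mul_assoc] using h1

/-- the double 3-cycle of Theta: `c → x → y' → c`, `c' → x' → y → c'`. -/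
theorem tau_th {c x x' y c' y' : Ω} (h : [c, x, x', y, c', y'].Nodup) :
    (swap x y * swap y x') * (swap c' c * swap c y') =
      (swap c x * swap x y' * (swap c' x' * swap x' y)) * ((swap c x * swap x x') * (swap y c' * swap c' y')) := by
  have h1 := swaps_ext _ (inj6 h)
    [(1, 3), (3, 2), (4, 0), (0, 5)] [(0, 1), (1, 5), (4, 2), (2, 3), (0, 1), (1, 2), (3, 4), (4, 5)] (by decide)
  simpa [mul_assoc] using h1

/-- a product of two 3-cycles `a → b → c`, `a' → b' → c'` commutes with `p` if `p` exchanges them. -/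
theorem tau_p {a b c a' b' c' : Ω} (h : [a, b, c, a', b', c'].Nodup) (hinv : ∀ t, p (p t) = t)
    (ha : p a = a') (hb : p b = b') (hc : p c = c') (o : Ω) :
    p ((swap a b * swap b c * (swap a' b' * swap b' c')) o) = (swap a b * swap b c * (swap a' b' * swap b' c')) (p o) := by
  have hf := inj6 h
  set f : Fin 6 → Ω := ![a, b, c, a', b', c'] with hfd
  have e : (swap a b * swap b c * (swap a' b' * swap b' c')) =
      (([(0, 1), (1, 2), (3, 4), (4, 5)] : List (Fin 6 × Fin 6)).map (fun q => swap (f q.1) (f q.2))).prod := by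
    simp [mul_assoc, hfd]
  have hp : ∀ i : Fin 6, p (f i) = f (![3, 4, 5, 0, 1, 2] i) := by
    intro i
    fin_cases i
    · exact ha
    · exact hb
    · exact hc
    · show p a' = a
      rw [← ha, hinv]
    · show p b' = b
      rw [← hb, hinv]
    · show p c' = c
      rw [← hc, hinv]
  rw [e]
  by_cases ho : ∃ i : Fin 6, o = f i
  · obtain ⟨i, rfl⟩ := ho
    rw [swaps_apply f hf, hp, hp, swaps_apply f hf]
    congr 1
    revert i
    decide
  · push Not at ho
    rw [swaps_fix f _ _ ho, swaps_fix]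
    intro i hi
    apply ho (![3, 4, 5, 0, 1, 2] i)
    rw [← hp, ← hi, hinv]

/-- three blocks. -/
theorem formPerm_rot3 {l : List Ω} (a b c : Ω) (P Q R : List Ω) (e : l ~r (a :: P ++ b :: Q ++ c :: R)) (h : l.Nodup) :
    List.formPerm l = swap a b * swap b c * (List.formPerm (a :: P) * List.formPerm (b :: Q) * List.formPerm (c :: R)) := by
  rw [List.formPerm_eq_of_isRotated h e]
  exact formPerm_append3 a b c P Q R (e.nodup_iff.1 h)

/-- the six blocks are pairwise disjoint. -/
theorem six_disj {L1 L2 L3 L4 L5 L6 : List Ω} (h : (L1 ++ L2 ++ L3 ++ (L4 ++ L5 ++ L6)).Nodup) :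
    List.Pairwise List.Disjoint [L1, L2, L3, L4, L5, L6] := by
  have e : L1 ++ L2 ++ L3 ++ (L4 ++ L5 ++ L6) = [L1, L2, L3, L4, L5, L6].flatten := by simp
  rw [e, List.nodup_flatten] at h
  exact h.2

/-- `sg` under a Theta move, block form. -/
theorem sg_th_aux (c x x' y c' y' : Ω) (P Q R G K M : List Ω) (B B' : List Ω)
    (hB : B ~r (y :: G ++ c' :: K ++ y' :: M)) (hB' : B' ~r (c' :: K ++ c :: P ++ y' :: M))
    (h : ((c :: P ++ x :: Q ++ x' :: R) ++ B).Nodup) :
    sg (x :: Q ++ y :: G ++ x' :: R, B') =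
      (swap c x * swap x y' * (swap c' x' * swap x' y)) * sg (c :: P ++ x :: Q ++ x' :: R, B) := by
  have hP : ((c :: P ++ x :: Q ++ x' :: R) ++ (y :: G ++ c' :: K ++ y' :: M)).Nodup :=
    (List.Perm.append_left _ hB.perm).nodup_iff.1 h
  have hd := six_disj hP
  simp only [List.pairwise_cons, List.mem_cons, List.not_mem_nil, or_false, forall_eq_or_imp, forall_eq,
    List.Pairwise.nil, and_true, IsEmpty.forall_iff, implies_true] at hd
  obtain ⟨⟨d12, d13, d14, d15, d16⟩, ⟨d23, d24, d25, d26⟩, ⟨d34, d35, d36⟩, ⟨d45, d46⟩, d56⟩ := hd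
  have hA' : ((x :: Q ++ y :: G ++ x' :: R) ++ (c' :: K ++ c :: P ++ y' :: M)).Nodup := by
    refine (List.perm_iff_count.2 fun z => ?_ : List.Perm _ _).nodup_iff.1 hP
    simp only [List.count_append, List.count_cons, List.cons_append, List.append_assoc]
    omega
  have n1 : (x :: Q ++ y :: G ++ x' :: R).Nodup := (List.nodup_append.1 hA').1
  have n2 : B'.Nodup := hB'.nodup_iff.2 (List.nodup_append.1 hA').2.1
  have n3 : (c :: P ++ x :: Q ++ x' :: R).Nodup := (List.nodup_append.1 h).1
  have n4 : B.Nodup := (List.nodup_append.1 h).2.1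
  unfold sg
  simp only
  rw [formPerm_rot3 x y x' Q G R (List.IsRotated.refl _) n1, formPerm_rot3 c' c y' K P M hB' n2,
    formPerm_rot3 c x x' P Q R (List.IsRotated.refl _) n3, formPerm_rot3 y c' y' G K M hB n4]
  have hsix : [c, x, x', y, c', y'].Nodup := by
    refine (hP.sublist ?_)
    have e1 : [c, x, x', y, c', y'] = [c] ++ [x] ++ [x'] ++ ([y] ++ [c'] ++ [y']) := rfl
    rw [e1]
    refine ((List.Sublist.append (List.Sublist.append ?_ ?_) ?_).append
      (List.Sublist.append (List.Sublist.append ?_ ?_) ?_)) <;> simp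
  have m1 : c ∈ c :: P := by simp
  have m2 : x ∈ x :: Q := by simp
  have m3 : x' ∈ x' :: R := by simp
  have m4 : y ∈ y :: G := by simp
  have m5 : c' ∈ c' :: K := by simp
  have m6 : y' ∈ y' :: M := by simp
  exact grp_th (tau_th hsix)
    (swaps_comm_formPerm (fun t => d14 t m4) (fun t => d15 t m5) (fun t => d16 t m6))
    (swaps_comm_formPerm (fun t => d24 t m4) (fun t => d25 t m5) (fun t => d26 t m6))
    (swaps_comm_formPerm (fun t => d34 t m4) (fun t => d35 t m5) (fun t => d36 t m6))
    (swaps_comm_formPerm (fun t => d25 t m5) (fun t => d12 m1 t) (fun t => d26 t m6))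
    (swaps_comm_formPerm (fun t => d45 t m5) (fun t => d14 m1 t) (fun t => d46 t m6))
    (swaps_comm_formPerm (fun t => d35 t m5) (fun t => d13 m1 t) (fun t => d36 t m6))
    (formPerm_comm d12) (formPerm_comm d13) (formPerm_comm d14) (formPerm_comm d15) (formPerm_comm d34)

/-- `sg` under a triple swap. -/
theorem sg_cm (a b c a' b' c' : Ω) (P Q R D P' Q' R' : List Ω)
    (h : ((a :: P ++ (b :: Q ++ c :: R)) ++ (D ++ (a' :: P' ++ (b' :: Q' ++ c' :: R')))).Nodup) :
    sg (b :: Q ++ (a :: P ++ c :: R), D ++ (b' :: Q' ++ (a' :: P' ++ c' :: R'))) =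
      (swap a b * swap b c * (swap a' b' * swap b' c')) *
        sg (a :: P ++ (b :: Q ++ c :: R), D ++ (a' :: P' ++ (b' :: Q' ++ c' :: R'))) := by
  have hB : (D ++ (a' :: P' ++ (b' :: Q' ++ c' :: R'))) ~r (a' :: P' ++ b' :: Q' ++ c' :: (R' ++ D)) := by
    have := List.isRotated_append (l := D) (l' := a' :: P' ++ (b' :: Q' ++ c' :: R'))
    simpa using this
  have hB' : (D ++ (b' :: Q' ++ (a' :: P' ++ c' :: R'))) ~r (b' :: Q' ++ a' :: P' ++ c' :: (R' ++ D)) := by
    have := List.isRotated_append (l := D) (l' := b' :: Q' ++ (a' :: P' ++ c' :: R'))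
    simpa using this
  have hP : ((a :: P ++ b :: Q ++ c :: R) ++ (a' :: P' ++ b' :: Q' ++ c' :: (R' ++ D))).Nodup := by
    have := (List.Perm.append_left _ hB.perm).nodup_iff.1 h
    simpa using this
  have hd := six_disj hP
  simp only [List.pairwise_cons, List.mem_cons, List.not_mem_nil, or_false, forall_eq_or_imp, forall_eq,
    List.Pairwise.nil, and_true, IsEmpty.forall_iff, implies_true] at hd
  obtain ⟨⟨d12, d13, d14, d15, d16⟩, ⟨d23, d24, d25, d26⟩, ⟨d34, d35, d36⟩, ⟨d45, d46⟩, d56⟩ := hd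
  have hA' : ((b :: Q ++ (a :: P ++ c :: R)) ++ (D ++ (b' :: Q' ++ (a' :: P' ++ c' :: R')))).Nodup := by
    refine (List.perm_iff_count.2 fun z => ?_ : List.Perm _ _).nodup_iff.1 h
    simp only [List.count_append, List.count_cons, List.cons_append, List.append_assoc]
    omega
  have n1 : (b :: Q ++ (a :: P ++ c :: R)).Nodup := (List.nodup_append.1 hA').1
  have n2 : (D ++ (b' :: Q' ++ (a' :: P' ++ c' :: R'))).Nodup := (List.nodup_append.1 hA').2.1
  have n3 : (a :: P ++ (b :: Q ++ c :: R)).Nodup := (List.nodup_append.1 h).1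
  have n4 : (D ++ (a' :: P' ++ (b' :: Q' ++ c' :: R'))).Nodup := (List.nodup_append.1 h).2.1
  unfold sg
  simp only
  rw [formPerm_rot3 b a c Q P R (by simpa using List.IsRotated.refl _) n1, formPerm_rot3 b' a' c' Q' P' (R' ++ D) hB' n2,
    formPerm_rot3 a b c P Q R (by simpa using List.IsRotated.refl _) n3, formPerm_rot3 a' b' c' P' Q' (R' ++ D) hB n4]
  have hsix : [a, b, c, a', b', c'].Nodup := by
    refine (hP.sublist ?_)
    have e1 : [a, b, c, a', b', c'] = [a] ++ [b] ++ [c] ++ ([a'] ++ [b'] ++ [c']) := rfl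
    rw [e1]
    refine ((List.Sublist.append (List.Sublist.append ?_ ?_) ?_).append
      (List.Sublist.append (List.Sublist.append ?_ ?_) ?_)) <;> simp
  have m4 : a' ∈ a' :: P' := by simp
  have m5 : b' ∈ b' :: Q' := by simp
  have m6 : c' ∈ c' :: (R' ++ D) := by simp
  exact grp_cm (tau_cm hsix)
    (swaps_comm_formPerm (fun t => d14 t m4) (fun t => d15 t m5) (fun t => d16 t m6))
    (swaps_comm_formPerm (fun t => d24 t m4) (fun t => d25 t m5) (fun t => d26 t m6))
    (swaps_comm_formPerm (fun t => d34 t m4) (fun t => d35 t m5) (fun t => d36 t m6))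
    (swaps_comm_formPerm (fun t => d15 t m5) (fun t => d14 t m4) (fun t => d16 t m6))
    (swaps_comm_formPerm (fun t => d25 t m5) (fun t => d24 t m4) (fun t => d26 t m6))
    (swaps_comm_formPerm (fun t => d35 t m5) (fun t => d34 t m4) (fun t => d36 t m6))
    (formPerm_comm d12) (formPerm_comm d45)

/-- `sg` under Theta, first form. -/
theorem sg_th1 (c x y : Ω) (P Q R D G E1 E2 : List Ω) (c' x' y' : Ω)
    (h : ((c :: P ++ x :: Q ++ x' :: R) ++ (D ++ y :: G ++ c' :: E1 ++ y' :: E2)).Nodup) :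
    sg (x :: Q ++ y :: G ++ x' :: R, D ++ c' :: E1 ++ c :: P ++ y' :: E2) =
      (swap c x * swap x y' * (swap c' x' * swap x' y)) *
        sg (c :: P ++ x :: Q ++ x' :: R, D ++ y :: G ++ c' :: E1 ++ y' :: E2) := by
  refine sg_th_aux c x x' y c' y' P Q R G E1 (E2 ++ D) _ _ ?_ ?_ h
  · have := List.isRotated_append (l := D) (l' := y :: G ++ c' :: E1 ++ y' :: E2)
    simpa using this
  · have := List.isRotated_append (l := D) (l' := c' :: E1 ++ c :: P ++ y' :: E2)
    simpa using this

/-- `sg` under Theta, second form. -/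
theorem sg_th2 (c x y : Ω) (P Q R D1 D2 G E : List Ω) (c' x' y' : Ω)
    (h : ((c :: P ++ x :: Q ++ x' :: R) ++ (D1 ++ y' :: D2 ++ y :: G ++ c' :: E)).Nodup) :
    sg (x :: Q ++ y :: G ++ x' :: R, D1 ++ c :: P ++ y' :: D2 ++ c' :: E) =
      (swap c x * swap x y' * (swap c' x' * swap x' y)) *
        sg (c :: P ++ x :: Q ++ x' :: R, D1 ++ y' :: D2 ++ y :: G ++ c' :: E) := by
  refine sg_th_aux c x x' y c' y' P Q R G (E ++ D1) D2 _ _ ?_ ?_ h
  · have := List.isRotated_append (l := D1 ++ y' :: D2) (l' := y :: G ++ c' :: E)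
    simpa using this
  · have := List.isRotated_append (l := D1 ++ c :: P ++ y' :: D2) (l' := c' :: E)
    simpa using this

/-- `mu` is invariant. -/
theorem EM.mu (hinv : ∀ t, p (p t) = t) {k : ℕ} {s t : St Ω} (h : EM p k s t) (hn : (s.1 ++ s.2).Nodup) :
    NTS.mu p t = NTS.mu p s := by
  funext o
  cases h with
  | rot X Y B =>
    unfold NTS.mu sg
    have : List.formPerm (Y ++ X) = List.formPerm (X ++ Y) :=
      List.formPerm_eq_of_isRotated (by
        have := (List.nodup_append.1 hn).1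
        exact (List.perm_append_comm.nodup_iff).1 this) (List.isRotated_append)
    simp only [this]
  | cm a b c P Q R D P' Q' R' =>
    have h1 := sg_cm a b c (p a) (p b) (p c) P Q R D P' Q' R' hn
    refine mu_eq_of_tau _ (tau_p ?_ hinv rfl rfl rfl) h1 o
    refine hn.sublist ?_
    have e1 : [a, b, c, p a, p b, p c] = ([a] ++ ([b] ++ [c])) ++ ([] ++ ([p a] ++ ([p b] ++ [p c]))) := rfl
    rw [e1]
    refine ((List.Sublist.append ?_ (List.Sublist.append ?_ ?_)).append
      (List.Sublist.append ?_ (List.Sublist.append ?_ (List.Sublist.append ?_ ?_)))) <;> simp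
  | th1 c x y P Q R D G E1 E2 =>
    have h1 := sg_th1 c x y P Q R D G E1 E2 (p c) (p x) (p y) hn
    refine mu_eq_of_tau _ (tau_p ?_ hinv rfl rfl (hinv y)) h1 o
    have h2 : [c, x, p x, y, p c, p y].Nodup := by
      refine hn.sublist ?_
      have e1 : [c, x, p x, y, p c, p y] = ([c] ++ [x] ++ [p x]) ++ ([] ++ [y] ++ [p c] ++ [p y]) := rfl
      rw [e1]
      refine ((List.Sublist.append (List.Sublist.append ?_ ?_) ?_).append
        (List.Sublist.append (List.Sublist.append (List.Sublist.append ?_ ?_) ?_) ?_)) <;> simp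
    refine (List.perm_iff_count.2 fun z => ?_ : List.Perm _ _).nodup_iff.1 h2
    simp only [List.count_cons]
    omega
  | th2 c x y P Q R D1 D2 G E =>
    have h1 := sg_th2 c x y P Q R D1 D2 G E (p c) (p x) (p y) hn
    refine mu_eq_of_tau _ (tau_p ?_ hinv rfl rfl (hinv y)) h1 o
    have h2 : [c, x, p x, p y, y, p c].Nodup := by
      refine hn.sublist ?_
      have e1 : [c, x, p x, p y, y, p c] = ([c] ++ [x] ++ [p x]) ++ ([] ++ [p y] ++ [y] ++ [p c]) := rfl
      rw [e1]
      refine ((List.Sublist.append (List.Sublist.append ?_ ?_) ?_).append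
        (List.Sublist.append (List.Sublist.append (List.Sublist.append ?_ ?_) ?_) ?_)) <;> simp
    refine (List.perm_iff_count.2 fun z => ?_ : List.Perm _ _).nodup_iff.1 h2
    simp only [List.count_cons]
    omega

end NTS
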