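import Pool.Agent.helper3.NTH.Hub

/-!
# MP_c8d30a, (A): S-states and elementary moves (rotation, triple swap, Theta)

`SS p e (A, B)` is the state `U = A e'`, `V = e B`.  `EM` moves the pair `(A, B)`: rotation of `A`, triple swap `cm` of three mixed
letters which have the same cyclic order in `A` as in `B`, and `Theta (c; x; y)` (`th1`: the other `y` is behind `c`, `th2`: before).
-/

set_option autoImplicit false

namespace NTS

open NTH

universe u
variable {Ω : Type u} {p : Ω → Ω}

/-- the S-state with end letter `e`. -/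
def SS (p : Ω → Ω) (e : Ω) (s : St Ω) : St Ω := (s.1 ++ [p e], e :: s.2)

/-- elementary moves of the pair of words; the number is the cost. -/
inductive EM (p : Ω → Ω) : ℕ → St Ω → St Ω → Prop
  | rot (X Y B : List Ω) : EM p 0 (X ++ Y, B) (Y ++ X, B)
  | cm (a b c : Ω) (P Q R D P' Q' R' : List Ω) :
      EM p 0 (a :: P ++ (b :: Q ++ c :: R), D ++ (p a :: P' ++ (p b :: Q' ++ p c :: R')))
        (b :: Q ++ (a :: P ++ c :: R), D ++ (p b :: Q' ++ (p a :: P' ++ p c :: R')))
  | th1 (c x y : Ω) (P Q R D G E1 E2 : List Ω) :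
      EM p (P.length + G.length + 2) (c :: P ++ x :: Q ++ p x :: R, D ++ y :: G ++ p c :: E1 ++ p y :: E2)
        (x :: Q ++ y :: G ++ p x :: R, D ++ p c :: E1 ++ c :: P ++ p y :: E2)
  | th2 (c x y : Ω) (P Q R D1 D2 G E : List Ω) :
      EM p (P.length + G.length + 2) (c :: P ++ x :: Q ++ p x :: R, D1 ++ p y :: D2 ++ y :: G ++ p c :: E)
        (x :: Q ++ y :: G ++ p x :: R, D1 ++ c :: P ++ p y :: D2 ++ p c :: E)

theorem rot_fwd (e : Ω) (X Y B : List Ω) (h : N p (SS p e (X ++ Y, B))) :
    Reach p 0 (SS p e (X ++ Y, B)) (SS p e (Y ++ X, B)) := by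
  have := rotR (p := p) e X Y [] B (by simpa [SS] using h)
  simpa [SS] using this

theorem cm_fwd (e a b c : Ω) (hinv : ∀ t, p (p t) = t) (P Q R D P' Q' R' : List Ω)
    (h : N p (SS p e (a :: P ++ (b :: Q ++ c :: R), D ++ (p a :: P' ++ (p b :: Q' ++ p c :: R'))))) :
    Reach p 0 (SS p e (a :: P ++ (b :: Q ++ c :: R), D ++ (p a :: P' ++ (p b :: Q' ++ p c :: R'))))
      (SS p e (b :: Q ++ (a :: P ++ c :: R), D ++ (p b :: Q' ++ (p a :: P' ++ p c :: R')))) := by
  have h1 := rot_fwd e (a :: P ++ b :: Q) (c :: R) (D ++ (p a :: P' ++ (p b :: Q' ++ p c :: R')))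
    (by simpa [SS] using h)
  have h2 := rotL (p := p) c (e :: D ++ p a :: P') (p b :: Q') R' (R ++ (a :: P ++ b :: Q) ++ [p e])
    (by simpa [SS] using h1.right)
  have h3 := rotR (p := p) (p b) (c :: R) (a :: P) (Q ++ [p e]) (Q' ++ (e :: D ++ p a :: P') ++ p c :: R')
    (by simpa [SS, hinv] using h2.right)
  have h4 := rotL (p := p) a (p b :: Q') (e :: D) (P' ++ p c :: R') (P ++ c :: R ++ b :: Q ++ [p e])
    (by simpa [SS, hinv] using h3.right)
  have h5 := rot_fwd e (a :: P ++ c :: R) (b :: Q) (D ++ (p b :: Q' ++ (p a :: P' ++ p c :: R')))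
    (by simpa [SS, hinv] using h4.right)
  simp only [SS, hinv, List.append_assoc, List.cons_append, List.nil_append] at h1 h2 h3 h4 h5 ⊢
  simpa using (((h1.trans h2).trans h3).trans h4).trans h5

theorem th1_fwd (e c x y : Ω) (P Q R D G E1 E2 : List Ω) :
    Reach p (P.length + G.length + 2) (SS p e (c :: P ++ x :: Q ++ p x :: R, D ++ y :: G ++ p c :: E1 ++ p y :: E2))
      (SS p e (x :: Q ++ y :: G ++ p x :: R, D ++ p c :: E1 ++ c :: P ++ p y :: E2)) := by
  have h2 := rotL (p := p) c (e :: D) (y :: G) (E1 ++ p y :: E2) (P ++ x :: Q ++ p x :: R ++ [p e])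
    ⟨⟨x, by simp, by simp⟩, ⟨y, by simp, by simp⟩⟩
  have h3 := runR (p := p) y (G ++ (e :: D) ++ p c :: E1) E2 (c :: P) (x :: Q ++ p x :: R ++ [p e])
    ⟨x, by simp, by simp⟩
  have h4 := runL (p := p) x Q (R ++ [p e]) (y :: G) (e :: D ++ p c :: E1 ++ c :: P ++ p y :: E2)
    ⟨c, by simp, by simp⟩
  simp only [SS, List.append_assoc, List.cons_append, List.nil_append] at h2 h3 h4 ⊢
  refine ((h2.trans h3).trans h4).mono ?_
  simp only [List.length_cons]
  omega

theorem th2_fwd (e c x y : Ω) (P Q R D1 D2 G E : List Ω) :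
    Reach p (P.length + G.length + 2) (SS p e (c :: P ++ x :: Q ++ p x :: R, D1 ++ p y :: D2 ++ y :: G ++ p c :: E))
      (SS p e (x :: Q ++ y :: G ++ p x :: R, D1 ++ c :: P ++ p y :: D2 ++ p c :: E)) := by
  have h2 := rotL (p := p) c (e :: D1 ++ p y :: D2) (y :: G) E (P ++ x :: Q ++ p x :: R ++ [p e])
    ⟨⟨x, by simp, by simp⟩, ⟨y, by simp, by simp⟩⟩
  have h3 := runR (p := p) y (G ++ (e :: D1)) (D2 ++ p c :: E) (c :: P) (x :: Q ++ p x :: R ++ [p e])
    ⟨x, by simp, by simp⟩
  have h4 := runL (p := p) x Q (R ++ [p e]) (y :: G) (e :: D1 ++ c :: P ++ p y :: D2 ++ p c :: E)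
    ⟨c, by simp, by simp⟩
  simp only [SS, List.append_assoc, List.cons_append, List.nil_append] at h2 h3 h4 ⊢
  refine ((h2.trans h3).trans h4).mono ?_
  simp only [List.length_cons]
  omega

/-- an elementary move is a path of the real states. -/
theorem EM.fwd (hinv : ∀ t, p (p t) = t) (e : Ω) {k : ℕ} {s t : St Ω} (h : EM p k s t) (hN : N p (SS p e s)) :
    Reach p k (SS p e s) (SS p e t) := by
  cases h with
  | rot X Y B => exact rot_fwd e X Y B hN
  | cm a b c P Q R D P' Q' R' => exact cm_fwd e a b c hinv P Q R D P' Q' R' hN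
  | th1 c x y P Q R D G E1 E2 => exact th1_fwd e c x y P Q R D G E1 E2
  | th2 c x y P Q R D1 D2 G E => exact th2_fwd e c x y P Q R D1 D2 G E

/-- the way back. -/
theorem EM.back (hinv : ∀ t, p (p t) = t) (e : Ω) {k : ℕ} {s t : St Ω} (h : EM p k s t) (hN : N p (SS p e s)) :
    Reach p k (SS p e t) (SS p e s) := by
  have hN' : N p (SS p e t) := (h.fwd hinv e hN).right
  cases h with
  | rot X Y B => exact rot_fwd e Y X B hN'
  | cm a b c P Q R D P' Q' R' => exact cm_fwd e b a c hinv Q P R D Q' P' R' hN'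
  | th1 c x y P Q R D G E1 E2 =>
    have h1 := rot_fwd e (x :: Q) (y :: G ++ p x :: R) (D ++ p c :: E1 ++ c :: P ++ p y :: E2)
      (by simpa using hN')
    have h2 := th2_fwd (p := p) e y (p x) c G R Q D E1 P E2
    have h3 := rot_fwd e (p x :: R) (c :: P ++ x :: Q) (D ++ y :: G ++ p c :: E1 ++ p y :: E2)
      (by
        have := h2.right
        simp only [hinv] at this
        simpa using this)
    simp only [hinv] at h2
    have h4 := (h1.trans (by simpa using h2)).trans (by simpa using h3)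
    refine (by simpa using h4 : Reach p _ _ _).mono ?_
    omega
  | th2 c x y P Q R D1 D2 G E =>
    have h1 := rot_fwd e (x :: Q) (y :: G ++ p x :: R) (D1 ++ c :: P ++ p y :: D2 ++ p c :: E)
      (by simpa using hN')
    have h2 := th1_fwd (p := p) e y (p x) c G R Q D1 P D2 E
    have h3 := rot_fwd e (p x :: R) (c :: P ++ x :: Q) (D1 ++ p y :: D2 ++ y :: G ++ p c :: E)
      (by
        have := h2.right
        simp only [hinv] at this
        simpa using this)
    simp only [hinv] at h2
    have h4 := (h1.trans (by simpa using h2)).trans (by simpa using h3)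
    refine (by simpa using h4 : Reach p _ _ _).mono ?_
    omega

/-- an elementary move is a round trip of the real states. -/
theorem EM.rt (hinv : ∀ t, p (p t) = t) (e : Ω) {k : ℕ} {s t : St Ω} (h : EM p k s t) (hN : N p (SS p e s)) :
    RT p k (SS p e s) (SS p e t) := ⟨h.fwd hinv e hN, h.back hinv e hN⟩

theorem EM.perm {k : ℕ} {s t : St Ω} (h : EM p k s t) : (s.1 ++ s.2).Perm (t.1 ++ t.2) := by
  classical
  rw [List.perm_iff_count]
  intro z
  cases h <;> simp only [List.count_append, List.count_cons, List.cons_append, List.append_assoc] <;> omega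

/-- sequences of elementary moves with total cost. -/
inductive EMs (p : Ω → Ω) : ℕ → St Ω → St Ω → Prop
  | refl (s : St Ω) : EMs p 0 s s
  | head {a b : ℕ} {s t v : St Ω} (h : EM p a s t) (h' : EMs p b t v) : EMs p (a + b) s v

theorem EMs.single {a : ℕ} {s t : St Ω} (h : EM p a s t) : EMs p a s t := by
  simpa using EMs.head h (.refl t)

theorem EMs.trans {a b : ℕ} {s t v : St Ω} (h : EMs p a s t) (h' : EMs p b t v) : EMs p (a + b) s v := by
  induction h with
  | refl _ => simpa using h'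
  | head h _ ih =>
    rw [add_assoc]
    exact .head h (ih h')

theorem EMs.perm {k : ℕ} {s t : St Ω} (h : EMs p k s t) : (s.1 ++ s.2).Perm (t.1 ++ t.2) := by
  induction h with
  | refl _ => exact .refl _
  | head h _ ih => exact h.perm.trans ih

theorem EMs.rt (hinv : ∀ t, p (p t) = t) (e : Ω) {k : ℕ} {s t : St Ω} (h : EMs p k s t) (hN : N p (SS p e s)) :
    RT p k (SS p e s) (SS p e t) := by
  induction h with
  | refl _ => exact ⟨.refl _ _ hN, .refl _ _ hN⟩
  | head h _ ih => exact (h.rt hinv e hN).trans (ih (h.rt hinv e hN).1.right)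

end NTS
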